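import Pool.Agent.H66.ZK.Stm

/-! # Project ZK, part TGT: the lines from `P` to the points close to `P` -/

set_option autoImplicit false

open Pool.Agent.Y720.MZ Pool.Agent.Q35.TT Pool.Agent.Q149.TT Pool.Agent.Q35.ZC Pool.Agent.H66.TK
open Filter Topology

namespace Pool.Agent.H66.ZK

namespace Tgt

/-- a fixed point with parameters -/
theorem fixp {X : Type} [PseudoMetricSpace X] {L : Type} [NontriviallyNormedField L]
    [CompleteSpace L] (x₀ : X) (k : X → L) (G : X → L → L) (H : X → L → L → L)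
    (hk : Tendsto k (𝓝 x₀) (𝓝 0))
    (hG : ContinuousAt (fun p : X × L => G p.1 p.2) (x₀, 0))
    (hH : ContinuousAt (fun p : X × L × L => H p.1 p.2.1 p.2.2) (x₀, 0, 0))
    (hGH : ∀ x a b, G x a - G x b = (a - b) * H x a b)
    (Q : X × L → Prop) (hQ : ∀ᶠ p in 𝓝 (x₀, (0 : L)), Q p) :
    ∀ᶠ x in 𝓝 x₀, ∃ τ, Q (x, τ) ∧ τ = k x * G x τ := by
  have h1 : ∀ᶠ p in 𝓝 (x₀, (0 : L)), ‖G p.1 p.2‖ < ‖G x₀ 0‖ + 1 :=
    hG.norm.eventually_lt_const (by simp)
  have h2 : ∀ᶠ p in 𝓝 (x₀, (0 : L), (0 : L)), ‖H p.1 p.2.1 p.2.2‖ < ‖H x₀ 0 0‖ + 1 :=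
    hH.norm.eventually_lt_const (by simp)
  obtain ⟨δ₁, hδ₁, h3⟩ := Metric.eventually_nhds_iff.mp (hQ.and h1)
  obtain ⟨δ₂, hδ₂, h4⟩ := Metric.eventually_nhds_iff.mp h2
  set r : ℝ := min δ₁ δ₂ / 2 with hr
  have hr0 : 0 < r := by rw [hr]; positivity
  have hr1 : r < δ₁ := by
    rw [hr]; have := min_le_left δ₁ δ₂; linarith [lt_min hδ₁ hδ₂]
  have hr2 : r < δ₂ := by
    rw [hr]; have := min_le_right δ₁ δ₂; linarith [lt_min hδ₁ hδ₂]
  have k1 : ∀ᶠ x in 𝓝 x₀, ‖k x‖ * (‖G x₀ 0‖ + 1) < r := by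
    have : Tendsto (fun x => ‖k x‖ * (‖G x₀ 0‖ + 1)) (𝓝 x₀) (𝓝 0) := by
      have := (hk.norm).mul_const (‖G x₀ 0‖ + 1)
      simpa using this
    exact this.eventually_lt_const hr0
  have k2 : ∀ᶠ x in 𝓝 x₀, ‖k x‖ * (‖H x₀ 0 0‖ + 1) < 1 / 2 := by
    have : Tendsto (fun x => ‖k x‖ * (‖H x₀ 0 0‖ + 1)) (𝓝 x₀) (𝓝 0) := by
      have := (hk.norm).mul_const (‖H x₀ 0 0‖ + 1)
      simpa using this
    exact this.eventually_lt_const (by norm_num)
  have k3 : ∀ᶠ x in 𝓝 x₀, dist x x₀ < min δ₁ δ₂ := Metric.ball_mem_nhds _ (lt_min hδ₁ hδ₂)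
  filter_upwards [k1, k2, k3] with x a1 a2 a3
  have b1 : ∀ τ : L, ‖τ‖ ≤ r → Q (x, τ) ∧ ‖G x τ‖ < ‖G x₀ 0‖ + 1 := by
    intro τ hτ
    refine h3 (y := (x, τ)) ?_
    rw [Prod.dist_eq, max_lt_iff, dist_zero_right]
    exact ⟨a3.trans_le (min_le_left _ _), hτ.trans_lt hr1⟩
  have b2 : ∀ τ τ' : L, ‖τ‖ ≤ r → ‖τ'‖ ≤ r → ‖H x τ τ'‖ < ‖H x₀ 0 0‖ + 1 := by
    intro τ τ' hτ hτ'
    refine h4 (y := (x, τ, τ')) ?_
    rw [Prod.dist_eq, Prod.dist_eq, max_lt_iff, max_lt_iff, dist_zero_right, dist_zero_right]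
    exact ⟨a3.trans_le (min_le_right _ _), hτ.trans_lt hr2, hτ'.trans_lt hr2⟩
  set f : L → L := fun τ => k x * G x τ with hf
  set s : Set L := Metric.closedBall 0 r with hs
  have hmaps : Set.MapsTo f s s := by
    intro τ hτ
    rw [hs, mem_closedBall_zero_iff] at hτ ⊢
    rw [hf]
    simp only [norm_mul]
    calc ‖k x‖ * ‖G x τ‖ ≤ ‖k x‖ * (‖G x₀ 0‖ + 1) := by
          gcongr
          exact (b1 τ hτ).2.le
      _ ≤ r := a1.le
  have hcon : ContractingWith (1 / 2 : NNReal) (hmaps.restrict f s s) := by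
    constructor
    · rw [← NNReal.coe_lt_coe]; norm_num
    · refine LipschitzWith.of_dist_le_mul ?_
      rintro ⟨τ, hτ⟩ ⟨τ', hτ'⟩
      rw [hs, mem_closedBall_zero_iff] at hτ hτ'
      rw [Subtype.dist_eq, Subtype.dist_eq]
      simp only [Set.MapsTo.val_restrict_apply, hf]
      rw [dist_eq_norm, dist_eq_norm, ← mul_sub, hGH, norm_mul, norm_mul]
      have e : ((1 / 2 : NNReal) : ℝ) = 1 / 2 := by norm_num
      rw [e]
      calc ‖k x‖ * (‖τ - τ'‖ * ‖H x τ τ'‖) = (‖k x‖ * ‖H x τ τ'‖) * ‖τ - τ'‖ := by ring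
        _ ≤ 1 / 2 * ‖τ - τ'‖ := by
          gcongr
          refine le_trans ?_ a2.le
          gcongr
          exact (b2 τ τ' hτ hτ').le
  obtain ⟨τ, hτ, hfix, _⟩ := ContractingWith.exists_fixedPoint' (s := s)
    (Metric.isClosed_closedBall.isComplete) hmaps hcon (x := 0)
    (by rw [hs]; exact Metric.mem_closedBall_self hr0.le) (edist_ne_top _ _)
  rw [hs, mem_closedBall_zero_iff] at hτ
  exact ⟨τ, (b1 τ hτ).1, hfix.symm⟩

section par

variable {L : Type} [NontriviallyNormedField L]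

/-- the parameters `α, β, w, t, t'` -/
abbrev Par (L : Type) : Type := (Fin 3 → L) × (Fin 4 → L) × L × L × L

/-- `cw` -/
def fc (x : Par L) : L := 3 * x.2.2.1 ^ 2 + (x.1 0 + x.1 1 * x.2.2.2.1 + x.1 2 * x.2.2.2.1 ^ 2)

/-- `c1` -/
def fd (x : Par L) : L := (x.1 1 + 2 * x.1 2 * x.2.2.2.1) * x.2.2.1 +
  (x.2.1 1 + 2 * x.2.1 2 * x.2.2.2.1 + 3 * x.2.1 3 * x.2.2.2.1 ^ 2)

/-- the slope -/
def fs (x : Par L) : L := -(fd x) / fc x

/-- `mm` -/
def fm (x : Par L) (u : L) : L := 3 * x.2.2.1 * u ^ 2 + (x.1 1 + 2 * x.1 2 * x.2.2.2.1) * u +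
  (x.1 2 * x.2.2.1 + x.2.1 2 + 3 * x.2.1 3 * x.2.2.2.1)

/-- `nn` -/
def fn (x : Par L) (u : L) : L := u ^ 3 + x.1 2 * u + x.2.1 3

/-- `z` -/
def fz (x : Par L) : L := x.2.2.2.2 - x.2.2.2.1

theorem fc_eq (α : Fin 3 → L) (β : Fin 4 → L) (w t t' : L) :
    cw α w ![1, t] = fc (α, β, w, t, t') := by
  simp [cw, q2, fc]

theorem fd_eq (α : Fin 3 → L) (β : Fin 4 → L) (w t t' : L) :
    c1 α β w ![1, t] = fd (α, β, w, t, t') := by
  simp [c1, fd]

theorem fs_eq (α : Fin 3 → L) (β : Fin 4 → L) (w t t' : L) :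
    sl α β w t = fs (α, β, w, t, t') := by
  rw [sl, fs, fc_eq α β w t t', fd_eq α β w t t']

theorem fm_eq (α : Fin 3 → L) (β : Fin 4 → L) (w t t' u : L) :
    mm α β w ![1, t] u 1 = fm (α, β, w, t, t') u := by
  simp [mm, fm]

theorem fn_eq (α : Fin 3 → L) (β : Fin 4 → L) (w t t' u : L) :
    nn α β u 1 = fn (α, β, w, t, t') u := by
  simp [nn, fn]

theorem fc_cont : Continuous (fc : Par L → L) := by
  unfold fc; fun_prop

theorem fd_cont : Continuous (fd : Par L → L) := by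
  unfold fd; fun_prop

theorem fs_cont {x : Par L} (h : fc x ≠ 0) : ContinuousAt (fs : Par L → L) x := by
  unfold fs
  exact fd_cont.continuousAt.neg.div fc_cont.continuousAt h

theorem fz_cont : Continuous (fz : Par L → L) := by
  unfold fz; fun_prop

theorem fm_cont : Continuous (fun p : Par L × L => fm p.1 p.2) := by
  unfold fm; fun_prop

theorem fn_cont : Continuous (fun p : Par L × L => fn p.1 p.2) := by
  unfold fn; fun_prop

/-- the function of the fixed point equation -/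
def fG (x : Par L) (τ : L) : L := fm x (fs x + τ) + fz x * fn x (fs x + τ)

/-- its difference quotient -/
def fH (x : Par L) (a b : L) : L :=
  3 * x.2.2.1 * (2 * fs x + a + b) + (x.1 1 + 2 * x.1 2 * x.2.2.2.1) +
    fz x * ((fs x + a) ^ 2 + (fs x + a) * (fs x + b) + (fs x + b) ^ 2 + x.1 2)

theorem fGH (x : Par L) (a b : L) : fG x a - fG x b = (a - b) * fH x a b := by
  unfold fG fH fm fn
  ring

theorem fsp_cont {x : Par L} (h : fc x ≠ 0) :
    ContinuousAt (fun p : Par L × L => (p.1, fs p.1 + p.2)) (x, 0) := by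
  have h1 : ContinuousAt (fun p : Par L × L => fs p.1) (x, 0) :=
    ContinuousAt.comp (f := fun p : Par L × L => p.1) (x := (x, (0 : L))) (fs_cont h)
      continuousAt_fst
  exact continuousAt_fst.prodMk (h1.add continuousAt_snd)

theorem fm'_cont {x : Par L} (h : fc x ≠ 0) :
    ContinuousAt (fun p : Par L × L => fm p.1 (fs p.1 + p.2)) (x, 0) :=
  ContinuousAt.comp (f := fun p : Par L × L => (p.1, fs p.1 + p.2)) (x := (x, (0 : L)))
    (g := fun p : Par L × L => fm p.1 p.2) fm_cont.continuousAt (fsp_cont h)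

theorem fn'_cont {x : Par L} (h : fc x ≠ 0) :
    ContinuousAt (fun p : Par L × L => fn p.1 (fs p.1 + p.2)) (x, 0) :=
  ContinuousAt.comp (f := fun p : Par L × L => (p.1, fs p.1 + p.2)) (x := (x, (0 : L)))
    (g := fun p : Par L × L => fn p.1 p.2) fn_cont.continuousAt (fsp_cont h)

theorem fz'_cont {x : Par L} : ContinuousAt (fun p : Par L × L => fz p.1) (x, 0) :=
  (fz_cont.comp continuous_fst).continuousAt

theorem fG_cont {x : Par L} (h : fc x ≠ 0) :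
    ContinuousAt (fun p : Par L × L => fG p.1 p.2) (x, 0) :=
  (fm'_cont h).add (fz'_cont.mul (fn'_cont h))

theorem fH_cont {x : Par L} (h : fc x ≠ 0) :
    ContinuousAt (fun p : Par L × L × L => fH p.1 p.2.1 p.2.2) (x, 0, 0) := by
  have h1 : ContinuousAt (fun p : Par L × L × L => fs p.1) (x, 0, 0) :=
    ContinuousAt.comp (f := fun p : Par L × L × L => p.1) (x := (x, (0 : L), (0 : L))) (fs_cont h)
      continuousAt_fst
  have h2 : ContinuousAt (fun p : Par L × L × L => fz p.1) (x, 0, 0) :=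
    (fz_cont.comp continuous_fst).continuousAt
  unfold fH
  fun_prop

theorem qv_line (α : Fin 3 → L) (β : Fin 4 → L) (w t τ : L)
    (h : cw α w ![1, t] * sl α β w t + c1 α β w ![1, t] = 0) :
    qv (qt α β w t).1 (qt α β w t).2 τ = mm α β w ![1, t] (sl α β w t + τ) 1 ^ 2 -
      4 * (cw α w ![1, t] * τ) * nn α β (sl α β w t + τ) 1 := by
  have g1 : gq α β w ![1, t] 1 = 2 * (α 1 + 2 * α 2 * t) * (α 2 * w + β 2 + 3 * β 3 * t) -
      4 * (cw α w ![1, t] * β 3 + c1 α β w ![1, t] * α 2) := by simp [gq]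
  have g2 : gq α β w ![1, t] 2 = (α 1 + 2 * α 2 * t) ^ 2 +
      2 * (3 * w) * (α 2 * w + β 2 + 3 * β 3 * t) - 4 * (cw α w ![1, t] * α 2) := by simp [gq]
  have g3 : gq α β w ![1, t] 3 = 2 * (3 * w) * (α 1 + 2 * α 2 * t) - 4 * c1 α β w ![1, t] := by
    simp [gq]
  have g4 : gq α β w ![1, t] 4 = (3 * w) ^ 2 - 4 * cw α w ![1, t] := by simp [gq]
  have m1 : ∀ u : L, mm α β w ![1, t] u 1 = 3 * w * u ^ 2 + (α 1 + 2 * α 2 * t) * u +
      (α 2 * w + β 2 + 3 * β 3 * t) := by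
    intro u; simp [mm]
  have n1 : ∀ u : L, nn α β u 1 = u ^ 3 + α 2 * u + β 3 := by
    intro u; simp [nn]
  have t0 : (qt α β w t).2 0 = gq α β w ![1, t] 1 + 2 * gq α β w ![1, t] 2 * sl α β w t +
      3 * gq α β w ![1, t] 3 * sl α β w t ^ 2 + 4 * gq α β w ![1, t] 4 * sl α β w t ^ 3 := rfl
  have t1 : (qt α β w t).2 1 = gq α β w ![1, t] 2 + 3 * gq α β w ![1, t] 3 * sl α β w t +
      6 * gq α β w ![1, t] 4 * sl α β w t ^ 2 := rfl
  have t2 : (qt α β w t).2 2 = gq α β w ![1, t] 3 + 4 * gq α β w ![1, t] 4 * sl α β w t := rfl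
  have t3 : (qt α β w t).2 3 = gq α β w ![1, t] 4 := rfl
  have t4 : (qt α β w t).1 = mm α β w ![1, t] (sl α β w t) 1 := rfl
  rw [qv, t0, t1, t2, t3, t4, g1, g2, g3, g4, m1, m1, n1]
  obtain ⟨s, hs⟩ : ∃ s, s = sl α β w t := ⟨_, rfl⟩
  obtain ⟨c, hc⟩ : ∃ s, s = cw α w ![1, t] := ⟨_, rfl⟩
  obtain ⟨d, hd⟩ : ∃ s, s = c1 α β w ![1, t] := ⟨_, rfl⟩
  rw [← hs, ← hc, ← hd] at h
  rw [← hs, ← hc, ← hd]
  linear_combination (4 * (s ^ 3 + α 2 * s + β 3) -
    4 * ((s + τ) ^ 3 + α 2 * (s + τ) + β 3)) * h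

end par

end Tgt

open Tgt

theorem tgt : S_TGT := by
  intro L _ _ _ α₀ β₀ w₀ t₀ h0 hcw hm ε hε
  set x₀ : Par L := (α₀, β₀, w₀, t₀, t₀) with hx₀
  have hc : fc x₀ ≠ 0 := by rw [hx₀, ← fc_eq]; exact hcw
  have hz0 : fz x₀ = 0 := by rw [hx₀, fz]; simp
  set m₀ : L := (qt α₀ β₀ w₀ t₀).1 with hm₀
  have hm₀' : m₀ = fm x₀ (fs x₀) := by
    rw [hm₀, qt, hx₀, ← fs_eq, ← fm_eq]
  -- the first conclusions
  have e1 : ∀ᶠ x : Par L in 𝓝 x₀, fc x ≠ 0 :=
    fc_cont.continuousAt.eventually_ne hc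
  have cs : ContinuousAt (fs : Par L → L) x₀ := fs_cont hc
  have e2 : ∀ᶠ x : Par L in 𝓝 x₀, ‖(qt x.1 x.2.1 x.2.2.1 x.2.2.2.1).1 - m₀‖ < ε := by
    have : ContinuousAt (fun x : Par L => (qt x.1 x.2.1 x.2.2.1 x.2.2.2.1).1) x₀ := by
      have e : (fun x : Par L => (qt x.1 x.2.1 x.2.2.1 x.2.2.2.1).1) = fun x => fm x (fs x) := by
        funext x
        obtain ⟨α, β, w, t, t'⟩ := x
        rw [qt, ← fs_eq, ← fm_eq]
      rw [e]
      unfold fm
      fun_prop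
    have h2 : ContinuousAt (fun x : Par L => ‖(qt x.1 x.2.1 x.2.2.1 x.2.2.2.1).1 - m₀‖) x₀ :=
      (this.sub continuousAt_const).norm
    refine h2.eventually_lt_const ?_
    rw [hx₀, hm₀]
    simpa using hε
  have e3 : ∀ i, ∀ᶠ x : Par L in 𝓝 x₀, ‖(qt x.1 x.2.1 x.2.2.1 x.2.2.2.1).2 i -
      (qt α₀ β₀ w₀ t₀).2 i‖ < ε := by
    intro i
    have : ContinuousAt (fun x : Par L => (qt x.1 x.2.1 x.2.2.1 x.2.2.2.1).2 i) x₀ := by
      have cs' : ContinuousAt (fun x : Par L => sl x.1 x.2.1 x.2.2.1 x.2.2.2.1) x₀ := by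
        have e : (fun x : Par L => sl x.1 x.2.1 x.2.2.1 x.2.2.2.1) = fs := by
          funext x
          obtain ⟨α, β, w, t, t'⟩ := x
          exact fs_eq α β w t t'
        rw [e]
        exact cs
      fin_cases i <;>
      · simp [qt, tay, gq, cw, c1, q2]
        fun_prop
    have h2 : ContinuousAt (fun x : Par L => ‖(qt x.1 x.2.1 x.2.2.1 x.2.2.2.1).2 i -
        (qt α₀ β₀ w₀ t₀).2 i‖) x₀ := (this.sub continuousAt_const).norm
    refine h2.eventually_lt_const ?_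
    rw [hx₀]
    simpa using hε
  -- the fixed point
  have hk : Tendsto (fun x : Par L => -(fz x) / fc x) (𝓝 x₀) (𝓝 0) := by
    have : ContinuousAt (fun x : Par L => -(fz x) / fc x) x₀ :=
      fz_cont.continuousAt.neg.div fc_cont.continuousAt hc
    have h2 := this.tendsto
    rwa [hz0, neg_zero, zero_div] at h2
  have q1 : ∀ᶠ p in 𝓝 (x₀, (0 : L)), ‖p.2‖ < ε := by
    have : ContinuousAt (fun p : Par L × L => ‖p.2‖) (x₀, 0) := continuousAt_snd.norm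
    exact this.eventually_lt_const (by simpa using hε)
  have q2 : ∀ᶠ p in 𝓝 (x₀, (0 : L)),
      ‖fm p.1 (fs p.1 + p.2) + 2 * fz p.1 * fn p.1 (fs p.1 + p.2) - m₀‖ < ε := by
    have : ContinuousAt (fun p : Par L × L =>
        ‖fm p.1 (fs p.1 + p.2) + 2 * fz p.1 * fn p.1 (fs p.1 + p.2) - m₀‖) (x₀, 0) :=
      (((fm'_cont hc).add ((continuousAt_const.mul fz'_cont).mul (fn'_cont hc))).sub
        continuousAt_const).norm
    refine this.eventually_lt_const ?_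
    simp only [hz0, add_zero, mul_zero, zero_mul, ← hm₀', sub_self, norm_zero]
    exact hε
  have q3 : ∀ᶠ p in 𝓝 (x₀, (0 : L)), fG p.1 p.2 ≠ 0 := by
    refine (fG_cont hc).eventually_ne ?_
    simp only [fG, hz0, add_zero, zero_mul, ← hm₀']
    exact hm
  have q4 : ∀ᶠ p in 𝓝 (x₀, (0 : L)),
      ‖p.1.2.2.1 + fz p.1 * (fs p.1 + p.2) - w₀‖ < ε := by
    have h1 : ContinuousAt (fun p : Par L × L => fs p.1 + p.2) (x₀, 0) :=
      continuousAt_snd.comp (fsp_cont hc)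
    have : ContinuousAt (fun p : Par L × L =>
        ‖p.1.2.2.1 + fz p.1 * (fs p.1 + p.2) - w₀‖) (x₀, 0) := by
      have h2 : ContinuousAt (fun p : Par L × L => p.1.2.2.1) (x₀, 0) := by fun_prop
      exact ((h2.add (fz'_cont.mul h1)).sub continuousAt_const).norm
    refine this.eventually_lt_const ?_
    simp only [hz0, zero_mul, add_zero]
    rw [hx₀]
    simpa using hε
  have e4 := fixp x₀ (fun x : Par L => -(fz x) / fc x) fG fH hk (fG_cont hc) (fH_cont hc) fGH _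
    (q1.and (q2.and (q3.and q4)))
  obtain ⟨δ, hδ, hall⟩ := Metric.eventually_nhds_iff.mp
    (e1.and (e2.and ((eventually_all.mpr e3).and e4)))
  have hdist : ∀ (α : Fin 3 → L) (β : Fin 4 → L) (w t t' : L), (∀ i, ‖α i - α₀ i‖ < δ) →
      (∀ i, ‖β i - β₀ i‖ < δ) → ‖w - w₀‖ < δ → ‖t - t₀‖ < δ → ‖t' - t₀‖ < δ →
      dist ((α, β, w, t, t') : Par L) x₀ < δ := by
    intro α β w t t' h1 h2 h3 h4 h5
    rw [hx₀, Prod.dist_eq, Prod.dist_eq, Prod.dist_eq, Prod.dist_eq]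
    simp only [max_lt_iff]
    rw [dist_pi_lt_iff hδ, dist_pi_lt_iff hδ, dist_eq_norm, dist_eq_norm, dist_eq_norm]
    refine ⟨fun i => ?_, fun i => ?_, h3, h4, h5⟩
    · rw [dist_eq_norm]; exact h1 i
    · rw [dist_eq_norm]; exact h2 i
  refine ⟨δ, hδ, fun α β w t h1 h2 h3 h4 _ => ?_⟩
  obtain ⟨a1, a2, a3, _⟩ := hall (hdist α β w t t₀ h1 h2 h3 h4 (by simpa using hδ))
  refine ⟨by rw [fc_eq α β w t t₀]; exact a1, a2, a3, fun t' h5 => ?_⟩
  obtain ⟨b1, _, _, τ, ⟨c1', c2, c3, c4⟩, c5⟩ := hall (hdist α β w t t' h1 h2 h3 h4 h5)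
  set x : Par L := (α, β, w, t, t') with hx
  have hM : mm α β w ![1, t] (sl α β w t + τ) 1 = fm x (fs x + τ) := by
    rw [fs_eq α β w t t', fm_eq α β w t t']
  have hN : nn α β (sl α β w t + τ) 1 = fn x (fs x + τ) := by
    rw [fs_eq α β w t t', fn_eq α β w t t']
  have hC : cw α w ![1, t] = fc x := fc_eq α β w t t'
  have hS : sl α β w t = fs x := fs_eq α β w t t'
  have hZ : fz x = t' - t := rfl
  set Mv : L := fm x (fs x + τ) with hMv
  set Nv : L := fn x (fs x + τ) with hNv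
  have hG : fG x τ = Mv + fz x * Nv := rfl
  have hmain : fc x * τ = -(fz x) * (Mv + fz x * Nv) := by
    rw [← hG]
    have : τ = -(fz x) / fc x * fG x τ := c5
    have h2 : fc x * τ = fc x * (-(fz x) / fc x * fG x τ) := congrArg (fun y => fc x * y) this
    rw [h2]
    field_simp
  have hdn : dn α β w t τ (Mv + 2 * fz x * Nv) = 2 * (Mv + fz x * Nv) := by
    rw [dn, hM]; ring
  have c3' : Mv + fz x * Nv ≠ 0 := c3
  have hdn0 : dn α β w t τ (Mv + 2 * fz x * Nv) ≠ 0 := by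
    rw [hdn]
    exact mul_ne_zero two_ne_zero c3'
  have hzz : zz α β w t τ (Mv + 2 * fz x * Nv) = fz x := by
    rw [zz, hdn, hC, hmain, div_eq_iff (mul_ne_zero two_ne_zero c3')]
    ring
  refine ⟨τ, Mv + 2 * fz x * Nv, c1', c2, ?_, hdn0, ?_, ?_⟩
  · have hb : qv (qt α β w t).1 (qt α β w t).2 τ = Mv ^ 2 - 4 * (fc x * τ) * Nv := by
      rw [← hM, ← hN, ← hC]
      have hs' : cw α w ![1, t] * sl α β w t + c1 α β w ![1, t] = 0 := by
        rw [sl]
        have : cw α w ![1, t] ≠ 0 := by rw [hC]; exact b1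
        field_simp
        ring
      exact qv_line α β w t τ hs'
    rw [hb, hmain]
    ring
  · rw [hzz, hZ]; ring
  · rw [hzz, hS]
    exact c4

end Pool.Agent.H66.ZK
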